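import Pool.Agent.Helper26.HN.Stmts
import Pool.Agent.Helper33.PM.Com

/-!
# HN, row TUZ: upper bound of the kinetic energy
-/

set_option autoImplicit false

namespace Pool.Agent.Helper33.HN

open MeasureTheory Filter Pool.Agent.Helper95 Pool.Agent.Helper95.PW Pool.Agent.Helper95.LN
open Pool.Agent.Helper26.HN

/-- the pointwise bound -/
theorem tuz_pt (h1 : ST_ESB) (z b d : ℝ) (hz : 0 ≤ z) (hb : 0 < b) (hbd : b ≤ d)
    (n M : ℕ) (X : Fin M → R3) (Z : Fin M → ℝ) (x : Cf n) (hS : Sep X d)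
    (hN : Nuc n Z) (hZ : ∀ j, Z j ≤ z) (hx : Dist X x) :
    -((1 + z) / b * n + z * ∑ k, near1 X (2 * b) (x k)) ≤ Vc X Z x := by
  obtain ⟨h2, h3, h4⟩ := h1 z b d hz hb hbd n M X Z x hS hN hZ hx
  linarith

/-- the integrated bound -/
theorem tuz_int (h1 : ST_ESB) (h2 : ST_AED) (h3 : ST_INZ) (h7 : ST_INTM)
    (z b d : ℝ) (hz : 0 ≤ z) (hb : 0 < b) (hbd : b ≤ d)
    (n M : ℕ) (X : Fin M → R3) (Z : Fin M → ℝ) (u : Wf n) (hS : Sep X d)
    (hN : Nuc n Z) (hZ : ∀ j, Z j ≤ z) (hu : Sm u) :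
    kin u ≤ QM X Z u + nucR X Z * Helper95.PW.sq u +
      (1 + z) / b * n * Helper95.PW.sq u + z * one (near1 X (2 * b)) u := by
  obtain ⟨hint, _⟩ := h3 n M X (2 * b) u hu
  have H := tuz_pt h1 z b d hz hb hbd n M X Z
  obtain ⟨C, hC⟩ : ∃ C : ℝ, C = (1 + z) / b * n := ⟨_, rfl⟩
  rw [← hC] at H ⊢
  have key : ∀ s, -(C * (∫ x, u s x ^ 2) +
      z * ∫ x, (∑ k, near1 X (2 * b) (x k)) * u s x ^ 2) ≤
      (∫ x, rep x * u s x ^ 2) - (∫ x, (∑ k, pot X Z (x k)) * u s x ^ 2) +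
        nucR X Z * ∫ x, u s x ^ 2 := by
    intro s
    obtain ⟨i1, i2, _, _⟩ := h7 n M X Z (u s) (u s) (hu s).1 (hu s).2 (hu s).1 (hu s).2
    have e1 : (fun x : Cf n => (∑ k, pot X Z (x k)) * (u s x * u s x)) =
        fun x : Cf n => (∑ k, pot X Z (x k)) * u s x ^ 2 := by
      funext x; rw [pow_two]
    have e2 : (fun x : Cf n => rep x * (u s x * u s x)) =
        fun x : Cf n => rep x * u s x ^ 2 := by
      funext x; rw [pow_two]
    rw [e1] at i1
    rw [e2] at i2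
    have i3 : Integrable (fun x : Cf n => u s x ^ 2) :=
      (com_memLp _ (hu s).1 (hu s).2).integrable_sq
    have i4 := hint s
    have j1 : Integrable (fun x : Cf n => rep x * u s x ^ 2 -
        (∑ k, pot X Z (x k)) * u s x ^ 2) := i2.sub i1
    have j2 : Integrable (fun x : Cf n => nucR X Z * u s x ^ 2) := i3.const_mul _
    have j3 : Integrable (fun x : Cf n => C * u s x ^ 2) :=
      i3.const_mul _
    have j4 : Integrable (fun x : Cf n => z * ((∑ k, near1 X (2 * b) (x k)) * u s x ^ 2)) :=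
      i4.const_mul _
    rw [← integral_const_mul, ← integral_const_mul, ← integral_add j3 j4, ← integral_neg,
      ← integral_sub i2 i1, ← integral_const_mul, ← integral_add j1 j2]
    refine integral_mono_ae (j3.add j4).neg (j1.add j2) ?_
    filter_upwards [h2 n M X] with x hx
    have h4 := H x hS hN hZ hx
    have h5 := mul_le_mul_of_nonneg_right h4 (sq_nonneg (u s x))
    unfold Vc at h5
    show -(C * u s x ^ 2 + z * ((∑ k, near1 X (2 * b) (x k)) * u s x ^ 2)) ≤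
      rep x * u s x ^ 2 - (∑ k, pot X Z (x k)) * u s x ^ 2 + nucR X Z * u s x ^ 2
    linarith
  have hsum := Finset.sum_le_sum fun s (_ : s ∈ Finset.univ) => key s
  rw [Finset.sum_neg_distrib, Finset.sum_add_distrib, Finset.sum_add_distrib,
    Finset.sum_sub_distrib, ← Finset.mul_sum, ← Finset.mul_sum, ← Finset.mul_sum] at hsum
  have e3 : QM X Z u = kin u + pair u - one (pot X Z) u := rfl
  have e4 : pair u = ∑ s, ∫ x, rep x * u s x ^ 2 := rfl
  have e5 : one (pot X Z) u = ∑ s, ∫ x, (∑ k, pot X Z (x k)) * u s x ^ 2 := rfl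
  have e6 : Helper95.PW.sq u = ∑ s, ∫ x, u s x ^ 2 := rfl
  have e7 : one (near1 X (2 * b)) u = ∑ s, ∫ x, (∑ k, near1 X (2 * b) (x k)) * u s x ^ 2 := rfl
  rw [← e4, ← e5, ← e6, ← e7] at hsum
  linarith

/-- the upper bound for the form by the residuum -/
theorem tuz_Q (hQ : ST_QHM) (hI : ST_INTM) {n M : ℕ} (X : Fin M → R3) (Z : Fin M → ℝ) (E t : ℝ)
    (ht : 0 < t) (u : Wf n) (hu : Sm u) : QM X Z u ≤ E * Helper95.PW.sq u +
      t * Helper95.PW.sq u + 1 / (4 * t) * resM X Z E u := by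
  obtain ⟨h1, h2⟩ := hQ n M X Z u u hu hu
  rw [h2, h1]
  unfold resM Helper95.PW.sq
  rw [Finset.mul_sum, Finset.mul_sum, Finset.mul_sum, ← Finset.sum_add_distrib,
    ← Finset.sum_add_distrib]
  apply Finset.sum_le_sum
  intro s _
  have hu2 : MemLp (u s) 2 volume := com_memLp _ (hu s).1 (hu s).2
  have hh : MemLp (hmM X Z (u s)) 2 volume := innm_hm_memLp hI X Z _ (hu s).1 (hu s).2
  have hd : MemLp (fun x => hmM X Z (u s) x - E * u s x) 2 volume := hh.sub (hu2.const_mul E)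
  have i1 : Integrable (fun x => u s x ^ 2) := hu2.integrable_sq
  have i2 : Integrable (fun x => (hmM X Z (u s) x - E * u s x) ^ 2) := hd.integrable_sq
  have i3 : Integrable (fun x => u s x * hmM X Z (u s) x) := hu2.integrable_mul hh
  have j1 : Integrable (fun x => E * u s x ^ 2) := i1.const_mul E
  have j2 : Integrable (fun x => t * u s x ^ 2) := i1.const_mul t
  have j3 : Integrable (fun x => 1 / (4 * t) * (hmM X Z (u s) x - E * u s x) ^ 2) :=
    i2.const_mul _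
  rw [← integral_const_mul, ← integral_const_mul, ← integral_const_mul,
    ← integral_add j1 j2]
  have j4 : Integrable (fun x => E * u s x ^ 2 + t * u s x ^ 2) := j1.add j2
  rw [← integral_add j4 j3]
  refine integral_mono i3 (j4.add j3) fun x => ?_
  show u s x * hmM X Z (u s) x ≤
    E * u s x ^ 2 + t * u s x ^ 2 + 1 / (4 * t) * (hmM X Z (u s) x - E * u s x) ^ 2
  have h3 : E * u s x ^ 2 + t * u s x ^ 2 + 1 / (4 * t) * (hmM X Z (u s) x - E * u s x) ^ 2 -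
      u s x * hmM X Z (u s) x =
      (2 * t * u s x - (hmM X Z (u s) x - E * u s x)) ^ 2 / (4 * t) := by
    field_simp
    ring
  have h4 : 0 ≤ (2 * t * u s x - (hmM X Z (u s) x - E * u s x)) ^ 2 / (4 * t) := by positivity
  linarith

/-- row TUZ -/
theorem TUZ (h1 : ST_ESB) (h2 : ST_AED) (h3 : ST_NEZ) (h4 : ST_INZ) (h5 : ST_QHM)
    (h6 : ST_INTM) : ST_TUZ := by
  intro d hd
  obtain ⟨C, hC, H⟩ := h3
  obtain ⟨C', hC', H'⟩ := H d (1 / 2) hd (by norm_num)
  obtain ⟨b0, hb0⟩ : ∃ b0 : ℝ, b0 = min 1 (d / 2) := ⟨_, rfl⟩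
  have hb0p : 0 < b0 := by rw [hb0]; exact lt_min one_pos (by positivity)
  have hb0d : b0 ≤ d / 2 := by rw [hb0]; exact min_le_right _ _
  obtain ⟨A, hA⟩ : ∃ A : ℝ, A = C * (1 / 2) ^ (-(3 / 2) : ℝ) := ⟨_, rfl⟩
  have hA0 : 0 < A := by rw [hA]; positivity
  obtain ⟨B, hB⟩ : ∃ B : ℝ, B = (2 * b0) ^ (1 / 2 : ℝ) := ⟨_, rfl⟩
  have hB0 : 0 < B := by rw [hB]; positivity
  refine ⟨2 * (3 / 2 + 4 / b0 + A * B + C'), by positivity, ?_⟩
  intro n M X Z z E u hz hM hN hZ hS hE hu hua hsq hres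
  have hz0 : 0 < z := by linarith
  have hM1 : (1 : ℝ) ≤ M := by exact_mod_cast hM
  have hnz : (n : ℝ) ≤ z * M := by
    rw [← hN.2]
    calc ∑ j, Z j ≤ ∑ _j : Fin M, z := Finset.sum_le_sum fun j _ => hZ j
      _ = z * M := by
        rw [Finset.sum_const, Finset.card_univ, Fintype.card_fin, nsmul_eq_mul, mul_comm]
  obtain ⟨b, hb⟩ : ∃ b : ℝ, b = b0 * z ^ (-(1 / 3) : ℝ) := ⟨_, rfl⟩
  have hbp : 0 < b := by rw [hb]; positivity
  have hzle : z ^ (-(1 / 3) : ℝ) ≤ 1 := Real.rpow_le_one_of_one_le_of_nonpos hz (by norm_num)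
  have hbd : 2 * b ≤ d := by
    have : b ≤ b0 * 1 := by
      rw [hb]
      exact mul_le_mul_of_nonneg_left hzle hb0p.le
    linarith
  have a1 := tuz_int h1 h2 h4 h6 z b d hz0.le hbp (by linarith) n M X Z u hS hN hZ hu
  have a2 := tuz_Q h5 h6 X Z E (1 / 2) (by norm_num) u hu
  have a3 := H' n M X z (2 * b) u hz hnz hS (by positivity) hbd hu hua hsq
  have s0 : 0 ≤ Helper95.PW.sq u := com_sq_nonneg u
  have b1 : (E + nucR X Z) * Helper95.PW.sq u ≤ 0 := mul_nonpos_of_nonpos_of_nonneg hE s0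
  have w1 : (1 : ℝ) ≤ z ^ (7 / 3 : ℝ) := Real.one_le_rpow hz (by norm_num)
  have w2 : z ^ 2 ≤ z ^ (7 / 3 : ℝ) := by
    rw [← Real.rpow_natCast]
    exact Real.rpow_le_rpow_of_exponent_le hz (by norm_num)
  obtain ⟨W, hW⟩ : ∃ W : ℝ, W = z ^ (7 / 3 : ℝ) := ⟨_, rfl⟩
  -- the term of the smearing
  have c1 : (1 + z) / b * n * Helper95.PW.sq u ≤ 4 / b0 * (W * M) := by
    have e1 : z ^ 2 / b = W / b0 := by
      rw [hb, hW]
      have e2 : z ^ (7 / 3 : ℝ) = z ^ 2 * z ^ (1 / 3 : ℝ) := by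
        rw [← Real.rpow_natCast z 2, ← Real.rpow_add hz0]
        norm_num
      rw [e2, Real.rpow_neg hz0.le]
      have : z ^ (1 / 3 : ℝ) ≠ 0 := by positivity
      field_simp
    calc (1 + z) / b * n * Helper95.PW.sq u ≤ (2 * z) / b * (z * M) * 2 := by
          have g1 : (1 + z) / b ≤ (2 * z) / b := by gcongr; linarith
          gcongr
      _ = 4 * (z ^ 2 / b) * M := by ring
      _ = 4 / b0 * (W * M) := by rw [e1]; ring
  have c2 : C * (1 / 2) ^ (-(3 / 2) : ℝ) * z ^ (5 / 2 : ℝ) * (2 * b) ^ (1 / 2 : ℝ) = A * B * W := by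
    rw [← hA]
    have e1 : (2 * b) ^ (1 / 2 : ℝ) = B * z ^ (-(1 / 6) : ℝ) := by
      rw [hb, hB, ← mul_assoc, Real.mul_rpow (by positivity) (by positivity), ← Real.rpow_mul hz0.le]
      norm_num
    have e2 : z ^ (5 / 2 : ℝ) * z ^ (-(1 / 6) : ℝ) = W := by
      rw [hW, ← Real.rpow_add hz0]
      norm_num
    rw [e1, ← e2]
    ring
  rw [c2] at a3
  rw [← hW] at w1 w2 ⊢
  have c3 : (A * B * W + C' * z ^ 2) * M ≤ (A * B + C') * (W * M) := by
    have : C' * z ^ 2 ≤ C' * W := mul_le_mul_of_nonneg_left w2 hC'.le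
    calc (A * B * W + C' * z ^ 2) * M ≤ (A * B * W + C' * W) * M := by gcongr
      _ = (A * B + C') * (W * M) := by ring
  have c4 : 1 ≤ W * M := one_le_mul_of_one_le_of_one_le w1 hM1
  have c5 : 1 / (4 * (1 / 2)) * resM X Z E u ≤ 1 / 2 := by
    have : (1 : ℝ) / (4 * (1 / 2)) = 1 / 2 := by norm_num
    rw [this]
    linarith
  have c6 : 2 * (3 / 2 + 4 / b0 + A * B + C') * (W * M) =
      3 * (W * M) + 2 * (4 / b0 * (W * M)) + 2 * ((A * B + C') * (W * M)) := by ring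
  rw [c6]
  linarith

end Pool.Agent.Helper33.HN
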